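import Pool.Agent.U259.WQ.Unb

/-!
# Alperin's weight conjecture is a congruence modulo any fixed integer

Definitions used (`Pool/Agent/Y63/NV/{Defs,Bawc}.lean`, `Pool/Agent/N85/WM/{Modp,Stm}.lean`,
`Pool/Agent/Y63/AWC/Defs.lean`). `F` is an algebraically closed field of characteristic `p` and `red` a
homomorphism from the ring of algebraic integers to `F`.

* `IsBlock B`: `B` is the central character of a block of `F[G]` (an algebra homomorphism from the
  centre of `F[G]`, the class functions with convolution, to `F`).
* `numIrrBlock B = l(B)`: the number of irreducible characters over `F` in `B`.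
* `numWts p red B = w(B)`: the number of classes of weights of `B`, i.e. the sum over representatives `Q`
  of the classes of `p`-subgroups of the numbers of the characters `χ` of `N_G(Q)/Q` of `p`-defect zero
  whose block induces `B` (`centralValue red χ` agrees with `B` on the class functions of `G`).
* `numRegularClasses p G = l(G)`: the number of the conjugacy classes of elements of `G` of order prime to
  `p`; `numWeights p G = w(G)`: the number of all classes of weights of `G`.
* `Wr q G`: the wreath product `G ≀ C_q`.

Proof. For a group `G` and a central element `e` of `F[G]` on which all blocks take the values `0` and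
`1`, let `S(G, e)` be the alternating sum `∑_σ (-1)^|σ| k(G_σ, e)` over the classes of chains `σ` of
nontrivial `p`-subgroups, `z(G, e)` the number of the characters of defect zero, `l(G, e)` and `w(G, e)`
the numbers of simple modules and weights on which `e` acts as `1`.
(i) `S(G, e) - z(G, e) = ∑_σ (-1)^|σ| (l - w)(G_σ, e)` (`Pool.Agent.U259.WQ.ident`; Knörr, Robinson).
So if `m` divides `l(B) - w(B)` for all blocks of all subgroups `G_σ` of `G`, it divides the left side.
(ii) With `a = q² - 1` for `q ≠ p` and `a = -1` for `q = p`,
`q S(G ≀ C_q, e ⊗ ⋯ ⊗ e) = S(G, e)^q + a S(G, e)`, and the same for `z` (`tot_rec`, `sd0_rec`). Therefore,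
if `q^k`, `k ≥ 1`, divides the numbers `S - z` for `G` and for `G ≀ C_q`, then `q^(k+1)` divides the number
for `G` (for blocks, one uses blocks of positive defect, `z = 0`). So `S = z` for all groups in the class,
and `l = w` follows from (i) by induction, after a reduction to the groups with `O_p(G) = 1`.
-/

set_option autoImplicit false

noncomputable section

namespace Pool.Agent.Results.MP_78bba1_al.CongruenceModAnyInteger

open Pool.Agent.Y63.NV (IsBlock numIrrBlock)
open Pool.Agent.Y63.AWC (numRegularClasses numWeights)
open Pool.Agent.N85.WM (numWts Wr)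

/-- A class of groups closed under isomorphisms, subgroups and quotients by normal `p`-subgroups. -/
structure ClosedClass (p : ℕ) (X : ∀ (G : Type) [Group G], Prop) : Prop where
  iso : ∀ (G H : Type) [Group G] [Group H], (G ≃* H) → X G → X H
  sub : ∀ (G : Type) [Group G] (H : Subgroup G), X G → X H
  quot : ∀ (G : Type) [Group G] (M : Subgroup G) [M.Normal], IsPGroup p M → X G → X (G ⧸ M)

/-- **Alperin's weight conjecture is a congruence modulo any fixed integer.** Let `p` be a prime.
(1) Let `m ≥ 2`. `l(B) = w(B)` for all blocks `B` of all finite groups if and only if `l(B) ≡ w(B)`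
modulo `m` for all of them. Also `l(G) = w(G)` for all finite groups `G` if and only if `l(G) ≡ w(G)`
modulo `m` for all of them. For example, this holds if `l(G) + w(G)` is always even.
(2) Let `q` be a prime, `m` a multiple of `q` and `X` a class of groups closed under isomorphisms,
subgroups, quotients by normal `p`-subgroups and, for finite groups, under `G ↦ G ≀ C_q`. Then the same
two equivalences hold for the finite groups in `X`. -/
theorem result (p : ℕ) [Fact p.Prime] (F : Type) [Field F] [IsAlgClosed F] [CharP F p]
    (red : integralClosure ℤ ℂ →+* F) :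
    (∀ m : ℕ, 2 ≤ m →
      ((∀ (G : Type) [Group G] [Finite G] (B : (G → F) → F), IsBlock B →
          numIrrBlock B = numWts p red B) ↔
        ∀ (G : Type) [Group G] [Finite G] (B : (G → F) → F), IsBlock B →
          numIrrBlock B ≡ numWts p red B [MOD m]) ∧
      ((∀ (G : Type) [Group G] [Finite G], numRegularClasses p G = numWeights p G) ↔
        ∀ (G : Type) [Group G] [Finite G], numRegularClasses p G ≡ numWeights p G [MOD m])) ∧
    ∀ (q m : ℕ) [Fact q.Prime], q ∣ m → ∀ X : ∀ (G : Type) [Group G], Prop, ClosedClass p X →
      (∀ (G : Type) [Group G] [Finite G], X G → X (Wr q G)) →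
      ((∀ (G : Type) [Group G] [Finite G], X G → ∀ B : (G → F) → F, IsBlock B →
          numIrrBlock B = numWts p red B) ↔
        ∀ (G : Type) [Group G] [Finite G], X G → ∀ B : (G → F) → F, IsBlock B →
          numIrrBlock B ≡ numWts p red B [MOD m]) ∧
      ((∀ (G : Type) [Group G] [Finite G], X G → numRegularClasses p G = numWeights p G) ↔
        ∀ (G : Type) [Group G] [Finite G], X G →
          numRegularClasses p G ≡ numWeights p G [MOD m]) := by
  have main : ∀ (q m : ℕ) [Fact q.Prime], q ∣ m → ∀ X : ∀ (G : Type) [Group G], Prop,
      ClosedClass p X → (∀ (G : Type) [Group G] [Finite G], X G → X (Wr q G)) →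
      ((∀ (G : Type) [Group G] [Finite G], X G → ∀ B : (G → F) → F, IsBlock B →
          numIrrBlock B = numWts p red B) ↔
        ∀ (G : Type) [Group G] [Finite G], X G → ∀ B : (G → F) → F, IsBlock B →
          numIrrBlock B ≡ numWts p red B [MOD m]) ∧
      ((∀ (G : Type) [Group G] [Finite G], X G → numRegularClasses p G = numWeights p G) ↔
        ∀ (G : Type) [Group G] [Finite G], X G →
          numRegularClasses p G ≡ numWeights p G [MOD m]) := by
    intro q m _ hqm X hX hwr
    have hX' : Pool.Agent.Y63.NV.Closed p X := ⟨fun G H _ _ hG ⟨e⟩ => hX.iso G H e hG,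
      fun G _ hG H => hX.sub G H hG, fun G _ hG M _ hM => hX.quot G M hM hG⟩
    refine ⟨⟨fun h G _ _ hG B hB => by rw [h G hG B hB], fun h G _ _ hG B hB => ?_⟩,
      ⟨fun h G _ _ hG => by rw [h G hG], fun h G _ _ hG => ?_⟩⟩
    · exact Pool.Agent.U259.WQ.bawc_of_mod red q X hX' hwr
        (fun G _ _ hG B hB => (h G hG B hB).of_dvd hqm) G hG B hB
    · exact Pool.Agent.U259.WQ.awc_of_mod q X hX' hwr (fun G _ _ hG => (h G hG).of_dvd hqm) G hG
  refine ⟨fun m hm => ?_, main⟩
  have : Fact m.minFac.Prime := ⟨Nat.minFac_prime (by omega)⟩
  obtain ⟨h1, h2⟩ := main m.minFac m m.minFac_dvd (fun _ _ => True)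
    ⟨fun _ _ _ _ _ _ => trivial, fun _ _ _ _ => trivial, fun _ _ _ _ _ _ => trivial⟩
    (fun _ _ _ _ => trivial)
  refine ⟨⟨fun h G _ _ B hB => by rw [h G B hB], fun h G _ _ B hB => ?_⟩,
    ⟨fun h G _ _ => by rw [h G], fun h G _ _ => ?_⟩⟩
  · exact h1.2 (fun G _ _ _ B hB => h G B hB) G trivial B hB
  · exact h2.2 (fun G _ _ _ => h G) G trivial

end Pool.Agent.Results.MP_78bba1_al.CongruenceModAnyInteger
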