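import Pool.Agent.N85.WM.Fin
import Pool.Agent.U507.AWTower

/-!
# Alperin's weight conjecture is a congruence modulo `p`

Definitions used (`Pool/Agent/Y63/NV/{Defs,Bawc}.lean`, `Pool/Agent/N85/WM/{Modp,Tot,Com,Stm}.lean`).
`F` is an algebraically closed field of characteristic `p` and `red` a homomorphism from the ring of
algebraic integers to `F`.

* `IsBlock B`: `B` is the central character of a block of `F[G]` (an algebra homomorphism from the
  centre of `F[G]`, the class functions with convolution, to `F`).
* `numIrrBlock B = l(B)`: the number of irreducible characters over `F` in `B`; `numIrr F G`: the number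
  of all irreducible characters of `G` over `F`.
* `numWts p red B = w(B)`: the number of classes of weights of `B`, i.e. the sum over representatives `Q`
  of the classes of `p`-subgroups of the numbers of the characters `χ` of `N_G(Q)/Q` of `p`-defect zero
  whose block induces `B` (`centralValue red χ` agrees with `B` on the class functions of `G`);
  `numWt p G`: the number of all classes of weights of `G`.
* `tripNum p Q g = T(Q, g)`: the number of the triples `(x, y, k)` of elements of `N_G(Q)` such that `k` is
  conjugate to `g` in `G` and `k[x,y]` is a `p`-element.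
* `regTrip p g = R(g)`: the number of the triples `(x, y, k)` of elements of `G` such that `x` has order
  prime to `p`, `k` is conjugate to `g` and `k[x,y]` is a `p`-element which commutes with `yxy⁻¹`.
* `Wr p G`: the wreath product `G ≀ C_p`; `WrN p j G`: the `j`-th iterated wreath product,
  `WrN p 0 G = G`, `WrN p (j + 1) G = WrN p j (G ≀ C_p)`.

Proof.  `p l(G ≀ C_p) = l^p + (p - 1) l` for `l = l(G)`, and the same for the numbers of weights, so `p^(k+1)`
divides `l - w` if `p^k`, `k ≥ 1`, divides `l - w` and `l(G ≀ C_p) - w(G ≀ C_p)`, and `p^k` divides the latter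
if `p^(k+1)` divides the former.  The same holds for sums of blocks.  The congruences modulo `p` are
rewritten by trace formulas for the sums of the central characters of the simple modules and of the
characters of defect zero of the groups `N_G(Q)/Q`.
-/

set_option autoImplicit false

open scoped Classical

noncomputable section

namespace Pool.Agent.Results.MP_78bba1_al.CongruenceModP

open Pool.Agent.Y63.NV (IsBlock numIrrBlock)
open Pool.Agent.N85.WM (numWts numIrr numWt tripNum regTrip Wr)
open Pool.Agent.U507.AW (WrN)

/-- The congruence for the element `g` of the finite group `G`: `R(g)` is congruent modulo `p |G|_p` to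
the sum of `T(Q, g)/|Q|` over all `p`-subgroups `Q` of `G`. -/
def Cong (p : ℕ) (G : Type) [Group G] (g : G) : Prop :=
  regTrip p g ≡ ∑ᶠ Q : {Q : Subgroup G // IsPGroup p Q}, tripNum p Q.1 g / Nat.card Q.1
    [MOD p ^ ((Nat.card G).factorization p + 1)]

/-- **Alperin's weight conjecture is a congruence modulo `p`.**
(1) For one finite group `G`: `p^a` divides `l(G) - w(G)` (number of simple modules minus number of
classes of weights) if and only if the congruence for `g = 1` holds for the first `a` iterated wreath
products `G, G ≀ C_p, (G ≀ C_p) ≀ C_p, …`; so `l(G) = w(G)` if and only if it holds for all of them.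
(2) For every class `X` of groups closed (for finite groups) under `G ↦ G ≀ C_p`, e.g. that of all
groups, the following are equivalent: `l(B) = w(B)` for all blocks `B` of all finite groups in `X`;
`l(B) ≡ w(B)` modulo `p` for these `B`; the congruence holds for all elements `g` of all finite groups in
`X`.  Also `l(G) = w(G)` for all finite groups `G` in `X` if and only if the congruence holds for `g = 1`
for all of them.
(3) The numbers `T(Q, g)/|Q|` are integers. -/
theorem result (p : ℕ) [Fact p.Prime] (F : Type) [Field F] [IsAlgClosed F] [CharP F p]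
    (red : integralClosure ℤ ℂ →+* F) :
    (∀ (G : Type) [Group G] [Finite G],
      (∀ a : ℕ, (p : ℤ) ^ a ∣ (numIrr F G : ℤ) - numWt p G ↔ ∀ j < a, Cong p (WrN p j G) 1) ∧
      (numIrr F G = numWt p G ↔ ∀ j : ℕ, Cong p (WrN p j G) 1)) ∧
    (∀ X : ∀ (G : Type) [Group G], Prop,
      (∀ (G : Type) [Group G] [Finite G], X G → X (Wr p G)) →
      ((∀ (G : Type) [Group G] [Finite G], X G → ∀ B : (G → F) → F, IsBlock B →
          numIrrBlock B = numWts p red B) ↔
        ∀ (G : Type) [Group G] [Finite G], X G → ∀ B : (G → F) → F, IsBlock B →
          numIrrBlock B ≡ numWts p red B [MOD p]) ∧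
      ((∀ (G : Type) [Group G] [Finite G], X G → ∀ B : (G → F) → F, IsBlock B →
          numIrrBlock B = numWts p red B) ↔
        ∀ (G : Type) [Group G] [Finite G], X G → ∀ g : G, Cong p G g) ∧
      ((∀ (G : Type) [Group G] [Finite G], X G → numIrr F G = numWt p G) ↔
        ∀ (G : Type) [Group G] [Finite G], X G → Cong p G 1)) ∧
    ∀ (G : Type) [Group G] [Finite G] (Q : Subgroup G), IsPGroup p Q → ∀ g : G,
      Nat.card Q ∣ tripNum p Q g := by
  refine ⟨fun G _ _ => ⟨fun a => Pool.Agent.U507.AW.tower p F red a G,
    Pool.Agent.U507.AW.tower_eq p F red G⟩, fun X hX => ?_, fun _ _ _ Q hQ g =>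
    ⟨_, ((mul_assoc _ _ _).symm.trans (Pool.Agent.N85.WM.norm_trip Q hQ g)).symm⟩⟩
  obtain ⟨h1, h2, h3⟩ := Pool.Agent.N85.WM.bawc_cong p F red X hX
  exact ⟨h1, h2, h3⟩

end Pool.Agent.Results.MP_78bba1_al.CongruenceModP
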