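import Pool.Agent.U259.AQ.Fin

/-!
# Alperin's weight conjecture: `l(G) - w(G)` is zero, or takes every residue class

`l(G)` is the number of simple modules of `G` over an algebraically closed field of characteristic `p`,
i.e. the number of `p`-regular classes (`numRegularClasses p G`), `w(G)` the number of classes of
`p`-weights (`numWeights p G`); both are those of `Pool.Agent.Y63.AWC`. `Wr q G` is the wreath product
`G ≀ C_q` with the cyclic group of order `q`.

Proof. Both `l` and `w` are multiplicative for direct products, and equal to `n` for the cyclic group of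
order `n`, if `p ∤ n`. For `G ≀ C_q` one has `q l' = l ^ q + (q² - 1) l` and `q w' = w ^ q + (q² - 1) w` if
`q ≠ p` (`Pool.Agent.U259.AQ.l_rec`, `w_rec`), and the same with `p - 1` in place of `q² - 1` if `q = p`
(`l_recp`, `w_recp`). For `w` this is proved with the Moebius function of the poset of the `p`-subgroups.
Hence, if `q` divides `l - w ≠ 0` then `l' - w'` has exactly one factor `q` less. For a prime `r < q` one
first takes the direct product with a cyclic group of order `n`: for a suitable `n` modulo `r`, if `r`
does not divide `l - w`, then it does not divide `l' - w'` (`choice`, `choice_p`). Treating the primes in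
increasing order one obtains from a group with `l ≠ w` one with `l - w` prime to a given `m`
(`sep_coprime`). Multiplication by `p` modulo `m` is given by the direct product with a group with
`l = w = p h`, `h` prime to `m`, which is `C_n ≀ C_3` for `p = 3` and `C_n ≀ C_2` for `p ≠ 3` (`exH`).
-/

set_option autoImplicit false

noncomputable section

namespace Pool.Agent.Results.MP_78bba1_al.OmittedResidueDecides

open Pool.Agent.Y63.AWC (numRegularClasses numWeights)
open Pool.Agent.N85.WM (Wr)

/-- The difference `l(G) - w(G)` of the two sides of Alperin's weight conjecture for `G`. -/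
def diff (p : ℕ) (G : Type) [Group G] : ℤ := (numRegularClasses p G : ℤ) - numWeights p G

/-- The difference for the `j`-th iterated wreath product `(⋯((G ≀ C_q) ≀ C_q)⋯) ≀ C_q`. -/
def diffN (p q : ℕ) [NeZero q] : ℕ → (G : Type) → [Group G] → ℤ
  | 0, G, _ => diff p G
  | j + 1, G, _ => diffN p q j (Wr q G)

/-- **Alperin's weight conjecture: the difference is zero, or takes every residue class.** Let `p` be
any prime, `l(G)` the number of `p`-regular classes and `w(G)` the number of classes of `p`-weights of `G`.
(1) Let `X` be a class of finite groups which contains the cyclic groups of order prime to `p`, and is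
closed under direct products and under `G ↦ G ≀ C_q` for all primes `q`. Then either `l(G) = w(G)` for all
groups in `X`, or `l(G) - w(G)` takes on `X` values in every residue class modulo every positive
integer `m`.
(2) In particular, `l(G) = w(G)` for all finite groups if and only if there is at least one residue class
modulo one positive integer `m` which contains no `l(G) - w(G)`.
(3) For every prime `q` and every finite group `G`, with `c = q² - 1` if `q ≠ p` and `c = q - 1` if `q = p`:
`q l(G ≀ C_q) = l(G) ^ q + c l(G)` and `q w(G ≀ C_q) = w(G) ^ q + c w(G)`.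
(4) For every prime `q` and every finite group `G`: `q ^ a` divides `l(G) - w(G)` if and only if `q` divides
the differences for the first `a` iterated wreath products with `C_q`, and `l(G) = w(G)` if and only if
`q` divides the differences for all of them. -/
theorem result (p : ℕ) [Fact p.Prime] :
    (∀ X : (∀ (G : Type) [Group G], Prop),
      (∀ (n : ℕ) [NeZero n], ¬ p ∣ n → X (Multiplicative (ZMod n))) →
      (∀ (G H : Type) [Group G] [Group H] [Finite G] [Finite H], X G → X H → X (G × H)) →
      (∀ (q : ℕ) [Fact q.Prime] (G : Type) [Group G] [Finite G], X G → X (Wr q G)) →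
      ((∀ (G : Type) [Group G] [Finite G], X G → numRegularClasses p G = numWeights p G) ∨
        ∀ (m : ℕ) (r : ℤ), m ≠ 0 → ∃ (G : Type) (_ : Group G) (_ : Finite G),
          X G ∧ (m : ℤ) ∣ diff p G - r)) ∧
    ((∀ (G : Type) [Group G] [Finite G], numRegularClasses p G = numWeights p G) ↔
      ∃ (m : ℕ) (r : ℤ), m ≠ 0 ∧ ∀ (G : Type) [Group G] [Finite G], ¬ (m : ℤ) ∣ diff p G - r) ∧
    (∀ (q : ℕ) [Fact q.Prime] (G : Type) [Group G] [Finite G],
      (q : ℤ) * numRegularClasses p (Wr q G) = (numRegularClasses p G : ℤ) ^ q +
        (if q = p then (q : ℤ) - 1 else (q : ℤ) ^ 2 - 1) * numRegularClasses p G ∧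
      (q : ℤ) * numWeights p (Wr q G) = (numWeights p G : ℤ) ^ q +
        (if q = p then (q : ℤ) - 1 else (q : ℤ) ^ 2 - 1) * numWeights p G) ∧
    ∀ (q : ℕ) [Fact q.Prime] (G : Type) [Group G] [Finite G],
      (∀ a : ℕ, (q : ℤ) ^ a ∣ diff p G ↔ ∀ j < a, (q : ℤ) ∣ diffN p q j G) ∧
      (numRegularClasses p G = numWeights p G ↔ ∀ j : ℕ, (q : ℤ) ∣ diffN p q j G) := by
  have hmain : ∀ X : (∀ (G : Type) [Group G], Prop),
      (∀ (n : ℕ) [NeZero n], ¬ p ∣ n → X (Multiplicative (ZMod n))) →
      (∀ (G H : Type) [Group G] [Group H] [Finite G] [Finite H], X G → X H → X (G × H)) →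
      (∀ (q : ℕ) [Fact q.Prime] (G : Type) [Group G] [Finite G], X G → X (Wr q G)) →
      ((∀ (G : Type) [Group G] [Finite G], X G → numRegularClasses p G = numWeights p G) ∨
        ∀ (m : ℕ) (r : ℤ), m ≠ 0 → ∃ (G : Type) (_ : Group G) (_ : Finite G),
          X G ∧ (m : ℤ) ∣ diff p G - r) := by
    intro X hc hm hw
    by_cases h : ∀ (G : Type) [Group G] [Finite G], X G → numRegularClasses p G = numWeights p G
    · exact Or.inl h
    · refine Or.inr fun m r hm0 => ?_
      push Not at h
      obtain ⟨G, _, _, hG, h1⟩ := h
      exact Pool.Agent.U259.AQ.dichotomy X hc hm hw hm0 hG h1 r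
  refine ⟨hmain, ⟨fun h => ⟨2, 1, two_ne_zero, ?_⟩, ?_⟩, fun q _ G _ _ =>
    ⟨Pool.Agent.U259.AQ.l_all q G, Pool.Agent.U259.AQ.w_all q G⟩, fun q _ G _ _ => ?_⟩
  · rintro G _ _ h1
    rw [diff, h G, sub_self] at h1
    norm_num at h1
  · rintro ⟨m, r, hm0, h⟩ G _ _
    rcases hmain (fun _ _ => True) (fun _ _ _ => trivial) (fun _ _ _ _ _ _ _ _ => trivial)
      (fun _ _ _ _ _ _ => trivial) with h1 | h1
    · exact h1 G trivial
    · obtain ⟨H, _, _, -, h2⟩ := h1 m r hm0
      exact (h H h2).elim
  · have hN : ∀ (j : ℕ) (G : Type) [Group G] [Finite G],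
        diffN p q j G = Pool.Agent.U259.AQ.DN p q j G := by
      intro j
      induction j with
      | zero => exact fun G _ _ => rfl
      | succ j ih => exact fun G _ _ => ih (Wr q G)
    simp only [hN]
    refine ⟨fun a => Pool.Agent.U259.AQ.D_tower (p := p) q a G, ?_⟩
    rw [← Pool.Agent.U259.AQ.D_zero (p := p) q G]
    unfold Pool.Agent.U259.AQ.D
    rw [sub_eq_zero, Nat.cast_inj]

end Pool.Agent.Results.MP_78bba1_al.OmittedResidueDecides
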