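import Pool.Agent.U9.AW.Bnd
import Pool.Agent.U259.AQ.Fin

/-!
# Alperin's weight conjecture: subpolynomial bounds on one residue class

`l(G)` is the number of simple modules of `G` over an algebraically closed field of characteristic `p`,
i.e. the number of `p`-regular classes (`numRegularClasses p G`), and `w(G)` the number of classes of
`p`-weights of `G` (`numWeights p G`), both as in `Pool.Agent.Y63.AWC`.

Let `X` be a class of finite groups which contains the cyclic groups of order prime to `p` and is closed
under direct products and `G ↦ G ≀ C_q`, `q` prime (for instance all finite groups). Fix one residue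
class `r` modulo one `m ≥ 1`. If the groups `G` in `X` with `l(G) - w(G) ≡ r mod m` satisfy
`l(G) ≤ |G| ^ o(1) w(G)`, then `l(G) ≤ w(G)` for ALL groups in `X`; and the same with `l` and `w`
exchanged. So each of the two inequalities of Alperin's conjecture (for whole groups) is equivalent to a
weak asymptotic form of it, and this form is needed only for the groups whose difference lies in one
residue class. If the residue class contains no difference then there is nothing to check: this is
the theorem of `OmittedResidueDecides`, which is contained here.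

Proof. Let `l(G) > w(G)`. The engine of `OmittedResidueDecides` (`Pool/Agent/U259/AQ` of helper259: `l`
and `w` are multiplicative, and there are recursions for `G ≀ C_q`) is applied to the pairs with
`0 ≤ w ≤ l`: there is a group `G₁` in `X` with `l > w` such that `l - w` is prime to `m`. If
`n ≡ 1 mod φ(m)` then `l ^ n - w ^ n` is also prime to `m`. Applied to the pairs with `0 < w = l` it
gives for every `k` a group `K` in `X` with `l(K) = w(K) ≡ k mod m`. So for infinitely many `n` there is a
`K` of bounded order such that the difference for `G₁ ^ n × K` is `r` modulo `m`, and the ratio `l / w` is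
`(l(G₁) / w(G₁)) ^ n`, a positive power of the order.
-/

set_option autoImplicit false

noncomputable section

namespace Pool.Agent.Results.MP_78bba1_al.ResidueClassBounds

open Pool.Agent.Y63.AWC (numRegularClasses numWeights)
open Pool.Agent.N85.WM (Wr)

/-- The class `X` contains the cyclic groups of order prime to `p`, and is closed under direct products
of finite groups and wreath products of finite groups with cyclic groups of prime order. -/
def ClosedClass (p : ℕ) (X : ∀ (G : Type) [Group G], Prop) : Prop :=
  (∀ (n : ℕ) [NeZero n], ¬ p ∣ n → X (Multiplicative (ZMod n))) ∧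
  (∀ (G H : Type) [Group G] [Group H] [Finite G] [Finite H], X G → X H → X (G × H)) ∧
  ∀ (q : ℕ) [Fact q.Prime] (G : Type) [Group G] [Finite G], X G → X (Wr q G)

/-- The difference `l(G) - w(G)` of the two sides of Alperin's weight conjecture for `G` is `r`
modulo `m`. -/
def DiffIn (p m : ℕ) (r : ℤ) (G : Type) [Group G] : Prop :=
  (m : ℤ) ∣ (numRegularClasses p G : ℤ) - numWeights p G - r

/-- `s(G) ≤ |G| ^ o(1) t(G)` for the finite groups `G` with the property `Y`: for every `ε > 0` there is
a constant `C` with `s(G) ≤ C |G| ^ ε t(G)`. -/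
def WeaklyBounded (s t : ∀ (G : Type) [Group G], ℕ) (Y : ∀ (G : Type) [Group G], Prop) : Prop :=
  ∀ ε : ℝ, 0 < ε → ∃ C : ℝ, ∀ (G : Type) [Group G] [Finite G], Y G →
    (s G : ℝ) ≤ C * (Nat.card G : ℝ) ^ ε * t G

theorem inv_w (p : ℕ) [Fact p.Prime] : Pool.Agent.U9.AW.Inv p (fun G [Group G] => numWeights p G) where
  cyc n _ h := (Pool.Agent.U259.AQ.lw_cyc (p := p) n h).2
  prod _ _ _ _ _ _ := Pool.Agent.U259.AQ.w_prod
  wr q _ G _ _ := Pool.Agent.U259.AQ.w_all q G

theorem inv_l (p : ℕ) [Fact p.Prime] :
    Pool.Agent.U9.AW.Inv p (fun G [Group G] => numRegularClasses p G) where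
  cyc n _ h := (Pool.Agent.U259.AQ.lw_cyc (p := p) n h).1
  prod G K _ _ _ _ := Pool.Agent.U259.AQ.l_prod G K
  wr q _ G _ _ := Pool.Agent.U259.AQ.l_all q G

theorem cls_of {p : ℕ} {X : ∀ (G : Type) [Group G], Prop} (h : ClosedClass p X) :
    Pool.Agent.U9.AW.Cls p X where
  cyc := h.1
  prod := h.2.1
  wr := h.2.2

/-- **A subpolynomial bound on one residue class decides Alperin's weight conjecture.** Let `p` be a
prime, `l(G)` the number of `p`-regular classes of `G` and `w(G)` the number of classes of `p`-weights,
`m ≥ 1` and `r` integers, and let `X` be a class of finite groups which contains the cyclic groups of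
order prime to `p` and is closed under direct products and `G ↦ G ≀ C_q`, `q` prime.
(1) If `l(G) ≤ |G| ^ o(1) w(G)` for the groups `G` in `X` with `l(G) - w(G) ≡ r mod m`, then
`l(G) ≤ w(G)` for all groups in `X`.
(2) If `w(G) ≤ |G| ^ o(1) l(G)` for the groups `G` in `X` with `l(G) - w(G) ≡ r mod m`, then
`w(G) ≤ l(G)` for all groups in `X`.
(3) `l(G) = w(G)` for all groups in `X` if and only if both bounds hold for the groups `G` in `X` with
`l(G) - w(G) ≡ r mod m`; in particular this holds for the class of all finite groups. -/
theorem result (p : ℕ) [Fact p.Prime] (m : ℕ) (hm : m ≠ 0) (r : ℤ)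
    (X : ∀ (G : Type) [Group G], Prop) (hX : ClosedClass p X) :
    (WeaklyBounded (fun G [Group G] => numRegularClasses p G) (fun G [Group G] => numWeights p G)
        (fun G [Group G] => X G ∧ DiffIn p m r G) →
      ∀ (G : Type) [Group G] [Finite G], X G → numRegularClasses p G ≤ numWeights p G) ∧
    (WeaklyBounded (fun G [Group G] => numWeights p G) (fun G [Group G] => numRegularClasses p G)
        (fun G [Group G] => X G ∧ DiffIn p m r G) →
      ∀ (G : Type) [Group G] [Finite G], X G → numWeights p G ≤ numRegularClasses p G) ∧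
    ((∀ (G : Type) [Group G] [Finite G], X G → numRegularClasses p G = numWeights p G) ↔
      WeaklyBounded (fun G [Group G] => numRegularClasses p G) (fun G [Group G] => numWeights p G)
        (fun G [Group G] => X G ∧ DiffIn p m r G) ∧
      WeaklyBounded (fun G [Group G] => numWeights p G) (fun G [Group G] => numRegularClasses p G)
        (fun G [Group G] => X G ∧ DiffIn p m r G)) ∧
    ((∀ (G : Type) [Group G] [Finite G], numRegularClasses p G = numWeights p G) ↔
      WeaklyBounded (fun G [Group G] => numRegularClasses p G) (fun G [Group G] => numWeights p G)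
        (fun G [Group G] => DiffIn p m r G) ∧
      WeaklyBounded (fun G [Group G] => numWeights p G) (fun G [Group G] => numRegularClasses p G)
        (fun G [Group G] => DiffIn p m r G)) := by
  have hp : p.Prime := Fact.out
  have h1 : ∀ X : (∀ (G : Type) [Group G], Prop), ClosedClass p X →
      WeaklyBounded (fun G [Group G] => numRegularClasses p G) (fun G [Group G] => numWeights p G)
        (fun G [Group G] => X G ∧ DiffIn p m r G) →
      ∀ (G : Type) [Group G] [Finite G], X G → numRegularClasses p G ≤ numWeights p G := by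
    intro X hX h
    refine Pool.Agent.U9.AW.main hp (cls_of hX) (inv_w p) (inv_l p) hm r fun ε hε => ?_
    obtain ⟨C, hC⟩ := h ε hε
    exact ⟨C, fun G _ _ hG hd => hC G ⟨hG, hd⟩⟩
  have h2 : ∀ X : (∀ (G : Type) [Group G], Prop), ClosedClass p X →
      WeaklyBounded (fun G [Group G] => numWeights p G) (fun G [Group G] => numRegularClasses p G)
        (fun G [Group G] => X G ∧ DiffIn p m r G) →
      ∀ (G : Type) [Group G] [Finite G], X G → numWeights p G ≤ numRegularClasses p G := by
    intro X hX h
    refine Pool.Agent.U9.AW.main hp (cls_of hX) (inv_l p) (inv_w p) hm (-r) fun ε hε => ?_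
    obtain ⟨C, hC⟩ := h ε hε
    refine ⟨C, fun G _ _ hG hd => hC G ⟨hG, ?_⟩⟩
    have h3 : (numRegularClasses p G : ℤ) - numWeights p G - r =
        -((numWeights p G : ℤ) - numRegularClasses p G - -r) := by ring
    rw [DiffIn, h3]
    exact (dvd_neg).2 hd
  have h0 : ∀ (s t : ∀ (G : Type) [Group G], ℕ) (Y : ∀ (G : Type) [Group G], Prop),
      (∀ (G : Type) [Group G] [Finite G], Y G → s G = t G) → WeaklyBounded s t Y := by
    intro s t Y h ε hε
    refine ⟨1, fun G _ _ hG => ?_⟩
    rw [h G hG, one_mul]
    have h3 : (1 : ℝ) ≤ (Nat.card G : ℝ) ^ ε := by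
      refine Real.one_le_rpow ?_ hε.le
      have : 0 < Nat.card G := Nat.card_pos
      exact_mod_cast this
    exact le_mul_of_one_le_left (Nat.cast_nonneg _) h3
  refine ⟨h1 X hX, h2 X hX, ⟨fun h => ⟨h0 _ _ _ fun G _ _ hG => h G hG.1,
    h0 _ _ _ fun G _ _ hG => (h G hG.1).symm⟩,
    fun h G _ _ hG => le_antisymm (h1 X hX h.1 G hG) (h2 X hX h.2 G hG)⟩,
    ⟨fun h => ⟨h0 _ _ _ fun G _ _ _ => h G, h0 _ _ _ fun G _ _ _ => (h G).symm⟩, fun h G _ _ => ?_⟩⟩
  have hT : ClosedClass p (fun _ _ => True) :=
    ⟨fun _ _ _ => trivial, fun _ _ _ _ _ _ _ _ => trivial, fun _ _ _ _ _ _ => trivial⟩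
  refine le_antisymm (h1 _ hT (fun ε hε => ?_) G trivial) (h2 _ hT (fun ε hε => ?_) G trivial)
  · obtain ⟨C, hC⟩ := h.1 ε hε
    exact ⟨C, fun G _ _ hG => hC G hG.2⟩
  · obtain ⟨C, hC⟩ := h.2 ε hε
    exact ⟨C, fun G _ _ hG => hC G hG.2⟩

end Pool.Agent.Results.MP_78bba1_al.ResidueClassBounds
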